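import Pool.Agent.H63.WT.TB
import Pool.Agent.H55.QCL.HEN

/-!
# Row PTB: rational points of a quartic curve near a point and near infinity
-/

set_option autoImplicit false

open Polynomial Matrix Pool.Agent.H32.QC Filter Topology

namespace Pool.Agent.H55.WT

open Pool.Agent.H63.WT

/-- elements near one are squares -/
theorem near_one (hOPN : T_OPN) {F : Type} [NontriviallyNormedField F] [IsUltrametricDist F]
    [ProperSpace F] [CharZero F] : ∀ᶠ c : F in 𝓝 1, c ≠ 0 ∧ IsSquare c := by
  obtain ⟨e, he, h⟩ := hOPN F 1 one_ne_zero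
  have h1 : ∀ᶠ c : F in 𝓝 1, ‖c - 1‖ < e := by
    have := Metric.ball_mem_nhds (1 : F) he
    filter_upwards [this] with c hc
    rwa [Metric.mem_ball, dist_eq_norm] at hc
  filter_upwards [h1] with c hc
  obtain ⟨h2, h3⟩ := h c hc
  rw [div_one] at h3
  exact ⟨h2, h3⟩

theorem not_mem_near {F : Type} [NontriviallyNormedField F] (t : F) (Z : Finset F) :
    ∀ᶠ t' : F in 𝓝[≠] t, t' ∉ Z := by
  classical
  have h1 : ∀ᶠ t' : F in 𝓝 t, t' ∉ (Z.erase t : Finset F) := by
    have h2 : IsClosed ((Z.erase t : Finset F) : Set F) := (Z.erase t).finite_toSet.isClosed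
    have h3 : t ∈ ((Z.erase t : Finset F) : Set F)ᶜ := by simp
    filter_upwards [h2.isOpen_compl.mem_nhds h3] with t' ht'
    exact ht'
  filter_upwards [mem_nhdsWithin_of_mem_nhds h1, self_mem_nhdsWithin] with t' h2 h3
  intro h4
  exact h2 (Finset.mem_erase.2 ⟨h3, h4⟩)

theorem pf_PTB' (hOPN : T_OPN) : T_PTB := by
  intro F _ _ _ _ m M0 hm hmon hsep hdeg
  have hone := near_one hOPN (F := F)
  refine ⟨?_, ?_⟩
  · intro t ε hε hsq Z
    have hball : ∀ᶠ t' : F in 𝓝 t, ‖t' - t‖ < ε := by
      filter_upwards [Metric.ball_mem_nhds t hε] with t' ht'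
      rwa [Metric.mem_ball, dist_eq_norm] at ht'
    by_cases h0 : eval t M0 = 0
    · set c : F := eval t (derivative M0) with hc
      have hc0 : c ≠ 0 := by
        intro h1
        have h2 := (Polynomial.separable_def _).1 hsep
        obtain ⟨a, b, hab⟩ := h2
        have h3 := congrArg (eval t) hab
        rw [eval_add, eval_mul, eval_mul, h0, ← hc, h1, mul_zero, mul_zero, add_zero,
          eval_one] at h3
        exact zero_ne_one h3
      set p : F[X] := M0.comp (X + C t) with hp
      set q : F[X] := p.divX with hq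
      have hp0 : p.coeff 0 = 0 := by
        rw [coeff_zero_eq_eval_zero, hp, eval_comp, eval_add, eval_X, eval_C, zero_add, h0]
      have hpq : p = q * X := by
        have h1 := divX_mul_X_add p
        rw [hp0, C_0, add_zero] at h1
        exact h1.symm
      have hev : ∀ h : F, eval (t + h) M0 = h * eval h q := by
        intro h
        have h1 := congrArg (eval h) hpq
        rw [hp, eval_comp, eval_add, eval_X, eval_C, eval_mul, eval_X] at h1
        rw [add_comm t h, h1, mul_comm]
      have hq0 : eval 0 q = c := by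
        have h1 : derivative p = derivative q * X + q := by
          rw [hpq, derivative_mul, derivative_X, mul_one]
        have h2 : derivative p = (derivative M0).comp (X + C t) := by
          rw [hp, derivative_comp, derivative_add, derivative_X, derivative_C, add_zero, one_mul]
        have h3 := congrArg (eval 0) h1
        rw [h2, eval_comp, eval_add, eval_X, eval_C, zero_add, eval_add, eval_mul, eval_X,
          mul_zero, zero_add] at h3
        exact h3.symm
      -- the family of points
      have hcont : Continuous fun u : F => t + m * c * u ^ 2 := by fun_prop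
      have hlim : Tendsto (fun u : F => t + m * c * u ^ 2) (𝓝 0) (𝓝 t) := by
        have := hcont.tendsto 0
        simpa using this
      have hne : Tendsto (fun u : F => t + m * c * u ^ 2) (𝓝[≠] 0) (𝓝[≠] t) := by
        refine tendsto_nhdsWithin_iff.2 ⟨hlim.mono_left nhdsWithin_le_nhds, ?_⟩
        filter_upwards [self_mem_nhdsWithin] with u hu
        have hu0 : u ≠ 0 := hu
        intro h1
        have h2 : m * c * u ^ 2 = 0 := by
          have h3 : t + m * c * u ^ 2 = t := h1
          exact left_eq_add.1 h3.symm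
        exact mul_ne_zero (mul_ne_zero hm hc0) (pow_ne_zero 2 hu0) h2
      have hr : Tendsto (fun u : F => eval (m * c * u ^ 2) q / c) (𝓝[≠] 0) (𝓝 1) := by
        have h1 : Continuous fun u : F => eval (m * c * u ^ 2) q / c := by
          have h2 : Continuous fun u : F => m * c * u ^ 2 := by fun_prop
          exact (q.continuous.comp h2).div_const c
        have h2 := h1.tendsto 0
        rw [zero_pow two_ne_zero, mul_zero, hq0, div_self hc0] at h2
        exact h2.mono_left nhdsWithin_le_nhds
      have hall := ((hr.eventually hone).and (hne.eventually (not_mem_near t Z))).and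
        ((hlim.eventually hball).filter_mono nhdsWithin_le_nhds) |>.and self_mem_nhdsWithin
      obtain ⟨u, ⟨⟨⟨hu1, hu2⟩, hu3⟩, hu4⟩, hu5⟩ := hall.exists
      have hu0 : u ≠ 0 := hu5
      refine ⟨t + m * c * u ^ 2, hu3, hu4, ?_⟩
      have hval : m * eval (t + m * c * u ^ 2) M0 =
          (m * c * u) * (m * c * u) * (eval (m * c * u ^ 2) q / c) := by
        rw [hev]
        field_simp
      rw [hval]
      refine ⟨mul_ne_zero (mul_ne_zero ?_ ?_) hu1, (IsSquare.mul_self _).mul hu2⟩ <;>
        exact mul_ne_zero (mul_ne_zero hm hc0) hu0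
    · have hc0 : m * eval t M0 ≠ 0 := mul_ne_zero hm h0
      have hr : Tendsto (fun t' : F => m * eval t' M0 / (m * eval t M0)) (𝓝[≠] t) (𝓝 1) := by
        have h1 : Continuous fun t' : F => m * eval t' M0 / (m * eval t M0) :=
          (continuous_const.mul M0.continuous).div_const _
        have h2 := h1.tendsto t
        rw [div_self hc0] at h2
        exact h2.mono_left nhdsWithin_le_nhds
      have hall := ((hr.eventually hone).and (not_mem_near t Z)).and
        (hball.filter_mono nhdsWithin_le_nhds)
      obtain ⟨t', ⟨⟨h1, h2⟩, h3⟩, h4⟩ := hall.exists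
      refine ⟨t', h3, h4, ?_⟩
      have hval : m * eval t' M0 = m * eval t M0 * (m * eval t' M0 / (m * eval t M0)) := by
        field_simp
      rw [hval]
      exact ⟨mul_ne_zero hc0 h1, hsq.mul h2⟩
  · intro hsq B
    have hr : Tendsto (fun u : F => eval u M0.reverse) (𝓝[≠] 0) (𝓝 1) := by
      have h2 := M0.reverse.continuous.tendsto 0
      have h3 : eval 0 M0.reverse = 1 := by
        rw [← coeff_zero_eq_eval_zero, coeff_zero_reverse, hmon.leadingCoeff]
      rw [h3] at h2
      exact h2.mono_left nhdsWithin_le_nhds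
    have hsmall : ∀ᶠ u : F in 𝓝[≠] 0, ‖u‖ < 1 / (|B| + 1) := by
      have h1 : ∀ᶠ u : F in 𝓝 0, ‖u‖ < 1 / (|B| + 1) := by
        have hpos : (0 : ℝ) < 1 / (|B| + 1) := by positivity
        filter_upwards [Metric.ball_mem_nhds (0 : F) hpos] with u hu
        rwa [Metric.mem_ball, dist_zero_right] at hu
      exact h1.filter_mono nhdsWithin_le_nhds
    have hall := ((hr.eventually hone).and hsmall).and self_mem_nhdsWithin
    obtain ⟨u, ⟨⟨h1, h2⟩, h3⟩, h4⟩ := hall.exists
    have hu0 : u ≠ 0 := h4
    refine ⟨u⁻¹, ?_, ?_⟩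
    · rw [norm_inv]
      have h5 : 0 < ‖u‖ := norm_pos_iff.2 hu0
      have h6 : |B| + 1 < ‖u‖⁻¹ := by
        rw [lt_inv_comm₀ (by positivity) h5]
        rwa [one_div] at h3
      linarith [le_abs_self B]
    · have hval : m * eval u⁻¹ M0 = m * (u⁻¹ ^ 2 * u⁻¹ ^ 2) * eval u M0.reverse := by
        have h5 : eval u M0.reverse = eval u⁻¹ M0 * u ^ 4 := by
          let _ : Invertible u⁻¹ := invertibleOfNonzero (inv_ne_zero hu0)
          have h6 := eval₂_reverse_mul_pow (RingHom.id F) u⁻¹ M0
          rw [eval₂_id, eval₂_id, invOf_eq_inv, inv_inv, hdeg] at h6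
          rw [← h6, mul_assoc, ← mul_pow, inv_mul_cancel₀ hu0, one_pow, mul_one]
        rw [h5]
        field_simp
      rw [hval]
      have h5 : u⁻¹ ≠ 0 := inv_ne_zero hu0
      exact ⟨mul_ne_zero (mul_ne_zero hm (mul_ne_zero (pow_ne_zero 2 h5) (pow_ne_zero 2 h5))) h1,
        (hsq.mul (IsSquare.mul_self _)).mul h2⟩

theorem pf_PTB : T_PTB := pf_PTB' (Pool.Agent.H55.QCL.pf_OPN Pool.Agent.H55.QCL.pf_HEN)

end Pool.Agent.H55.WT
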