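import Pool.Agent.H63.WT.TD
import Pool.Agent.H69.QCL.REA

/-!
# Row RHP: the symbols over the real numbers
-/

set_option autoImplicit false

open Polynomial Matrix Pool.Agent.H32.QC

namespace Pool.Agent.H55.WT

open Pool.Agent.H63.WT

/-- the symbol at a real root -/
theorem solM_lin (e : ℝ) (a b : ℝ[X]) : SolM (X - C e) a b ↔ Sol (eval e a) (eval e b) := by
  have hd : ∀ q : ℝ[X], X - C e ∣ q ↔ eval e q = 0 := fun q => dvd_iff_isRoot
  constructor
  · rintro ⟨x, y, z, hne, h⟩
    rw [hd, hd, hd] at hne
    rw [hd] at h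
    refine ⟨eval e x, eval e y, eval e z, hne, ?_⟩
    simp only [eval_sub, eval_mul, eval_pow] at h
    linarith
  · rintro ⟨x, y, z, hne, h⟩
    refine ⟨C x, C y, C z, ?_, ?_⟩
    · rw [hd, hd, hd, eval_C, eval_C, eval_C]
      exact hne
    · rw [hd]
      simp only [eval_sub, eval_mul, eval_pow, eval_C]
      linarith

/-- modulo an irreducible polynomial without real root everything is a square -/
theorem solM_quad (p a b : ℝ[X]) (hp : Irreducible p) (hr : ∀ e : ℝ, eval e p ≠ 0) :
    SolM p a b := by
  have hdeg : (p.map (algebraMap ℝ ℂ)).degree ≠ 0 := by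
    rw [degree_map]
    intro h
    exact hp.not_isUnit (isUnit_iff_degree_eq_zero.2 h)
  obtain ⟨w, hw⟩ := Complex.exists_root (f := p.map (algebraMap ℝ ℂ))
    (by
      rw [degree_map]
      exact Polynomial.degree_pos_of_irreducible hp)
  have hw0 : aeval w p = 0 := by
    rw [IsRoot, eval_map_algebraMap] at hw
    exact hw
  have him : w.im ≠ 0 := by
    intro h
    have h1 : w = ((w.re : ℝ) : ℂ) := by
      apply Complex.ext
      · simp
      · simp [h]
    rw [h1] at hw0
    have h2 : aeval ((w.re : ℝ) : ℂ) p = ((eval w.re p : ℝ) : ℂ) := by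
      have := aeval_algebraMap_apply ℂ w.re p
      rw [coe_aeval_eq_eval] at this
      exact this
    rw [h2] at hw0
    exact hr _ (Complex.ofReal_eq_zero.1 hw0)
  obtain ⟨s, hs⟩ := IsAlgClosed.exists_pow_nat_eq (aeval w a : ℂ) (n := 2) two_pos
  obtain ⟨u, v, huv⟩ : ∃ u v : ℝ, (u : ℂ) + v * w = s := by
    refine ⟨s.re - s.im / w.im * w.re, s.im / w.im, ?_⟩
    apply Complex.ext
    · simp
    · simp
      field_simp
  refine ⟨1, 0, C u + C v * X, Or.inl ?_, ?_⟩
  · intro h
    exact hp.not_isUnit (isUnit_of_dvd_one h)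
  · by_contra hnd
    have hcop : IsCoprime p ((C u + C v * X) ^ 2 - a * 1 ^ 2 - b * 0 ^ 2) :=
      (hp.coprime_iff_not_dvd).2 hnd
    obtain ⟨α, β, hαβ⟩ := hcop
    have h1 := congrArg (aeval w) hαβ
    have h2 : aeval w ((C u + C v * X) ^ 2 - a * 1 ^ 2 - b * 0 ^ 2) = 0 := by
      simp only [map_sub, map_pow, map_add, map_mul, aeval_C, aeval_X, map_one, map_zero]
      have h3 : (algebraMap ℝ ℂ) u + (algebraMap ℝ ℂ) v * w = s := huv
      rw [h3, hs]
      ring
    rw [map_add, map_mul, map_mul, hw0, h2, mul_zero, mul_zero, add_zero, map_one] at h1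
    exact zero_ne_one h1

theorem pf_RHP : T_RHP := by
  classical
  intro A a b hmon hsep ha hb
  have hA0 : A ≠ 0 := hmon.ne_zero
  unfold hpr
  have hnd : (UniqueFactorizationMonoid.normalizedFactors A).Nodup :=
    (UniqueFactorizationMonoid.squarefree_iff_nodup_normalizedFactors hA0).1 hsep.squarefree
  have hmem : ∀ p, p ∈ UniqueFactorizationMonoid.normalizedFactors A ↔
      Irreducible p ∧ p.Monic ∧ p ∣ A := fun p => by
    exact Polynomial.mem_normalizedFactors_iff hA0
  have h1 : ((UniqueFactorizationMonoid.normalizedFactors A).map fun p => hm p a b).prod =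
      ∏ p ∈ (UniqueFactorizationMonoid.normalizedFactors A).toFinset, hm p a b := by
    rw [Finset.prod_multiset_map_count]
    refine Finset.prod_congr rfl fun p hp => ?_
    rw [Multiset.count_eq_one_of_mem hnd (Multiset.mem_toFinset.1 hp), pow_one]
  rw [h1]
  have hinj : Function.Injective fun e : ℝ => X - C e := by
    intro e e' h
    have h2 : (X : ℝ[X]) - C e = X - C e' := h
    exact C_injective (sub_right_injective h2)
  have hsub : A.roots.toFinset.image (fun e : ℝ => X - C e) ⊆
      (UniqueFactorizationMonoid.normalizedFactors A).toFinset := by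
    intro p hp
    rw [Finset.mem_image] at hp
    obtain ⟨e, he, rfl⟩ := hp
    rw [Multiset.mem_toFinset, mem_roots hA0] at he
    rw [Multiset.mem_toFinset, hmem]
    exact ⟨irreducible_X_sub_C e, monic_X_sub_C e, dvd_iff_isRoot.2 he⟩
  rw [← Finset.prod_subset hsub, Finset.prod_image fun x _ y _ h => hinj h]
  · have h2 : ∀ e ∈ A.roots.toFinset, hm (X - C e) a b =
        if eval e a < 0 ∧ eval e b < 0 then -1 else 1 := by
      intro e he
      rw [Multiset.mem_toFinset, mem_roots hA0] at he
      have hne : ∀ q : ℝ[X], IsCoprime A q → eval e q ≠ 0 := by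
        rintro q ⟨α, β, h⟩ h0
        have h3 := congrArg (eval e) h
        rw [eval_add, eval_mul, eval_mul, he.eq_zero, h0, mul_zero, mul_zero, add_zero,
          eval_one] at h3
        exact zero_ne_one h3
      have ha0 := hne a ha
      have hb0 := hne b hb
      unfold hm
      rw [solM_lin, Pool.Agent.H69.QCL.rea_sol]
      by_cases h3 : eval e a < 0 ∧ eval e b < 0
      · rw [if_pos h3, if_neg]
        push Not
        exact h3
      · rw [if_neg h3, if_pos]
        by_contra h4
        push Not at h4
        exact h3 h4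
    rw [Finset.prod_congr rfl h2, Finset.prod_ite, Finset.prod_const, Finset.prod_const_one,
      mul_one]
  · intro p hp hp'
    rw [Multiset.mem_toFinset, hmem] at hp
    obtain ⟨hirr, hpm, hpA⟩ := hp
    unfold hm
    rw [if_pos]
    apply solM_quad p a b hirr
    intro e he
    apply hp'
    rw [Finset.mem_image]
    refine ⟨e, ?_, ?_⟩
    · rw [Multiset.mem_toFinset, mem_roots hA0]
      exact Polynomial.eval_eq_zero_of_dvd_of_eval_eq_zero hpA he
    · have h3 : X - C e ∣ p := dvd_iff_isRoot.2 he
      have h4 : Associated (X - C e) p :=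
        (irreducible_X_sub_C e).associated_of_dvd hirr h3
      exact eq_of_monic_of_associated (monic_X_sub_C e) hpm h4

end Pool.Agent.H55.WT
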